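import Pool.Agent.Lib.MP_562b47_mp.CH.Std
import Pool.Agent.Lib.MP_562b47_mp.BR.InstE
import Pool.Agent.Lib.MP_562b47_mp.BR.InstL
import Pool.Agent.Lib.MP_562b47_mp.WO.Thin

/-!
MP_562b47, d = 2, the chain: removing the class `m` in the instance.
-/

open Finset MeasureTheory

namespace Pool.Agent.Lib.MP_562b47_mp.CH

open Pool.Agent.Lib.MP_562b47_mp.BR Pool.Agent.Lib.MP_562b47_mp.WO Pool.Agent.Lib.MP_562b47_mp

variable {c : ℝ}

/-- the constant of section 5 for the instance -/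
theorem Lc_le (G : Gd c) {ι : Type} [Fintype ι] [DecidableEq ι] (P : Par c ι) (hG : P.G = G)
    (m : ℕ) {a : ℝ} (ha : 0 < a) (ha1 : a ≤ 1) :
    EC.Lc P.sys m a (G.nQ (P.N0 + m)) ≤
      (8 * EC.KC * G.r + (2 + 8 * G.r) * (2 * (G.b : ℝ) + 1) ^ 2 + 1) *
        ((P.N0 + m : ℕ) : ℝ) ^ 2 / a := by
  subst hG
  set N : ℕ := P.N0 + m with hN
  have hN1 : 1 ≤ N := P.one_le.trans (Nat.le_add_right _ _)
  have hNr : (1 : ℝ) ≤ (N : ℝ) := by exact_mod_cast hN1
  have hr := P.G.r_pos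
  have hlw : P.sys.lw m = lw P.G.r N := P.lw_sys m
  have hlwr : lw P.G.r N ≤ P.G.r := by
    unfold lw
    rw [div_le_iff₀ (by positivity)]
    have h1 : (1 : ℝ) ≤ 5 * (((N : ℝ) + 1) * (N + 2)) := by nlinarith
    nlinarith
  have hlw0 : 0 < lw P.G.r N := lw_pos hr N
  have hnQ := P.G.nQ_le hN1
  have hnQ0 : 0 ≤ P.G.nQ N := P.G.nQ_nonneg N
  have hb0 : (0 : ℝ) ≤ (2 * (P.G.b : ℝ) + 1) ^ 2 := by positivity
  have hKC : (0 : ℝ) ≤ EC.KC := by unfold EC.KC; norm_num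
  have hN2 : (1 : ℝ) ≤ (N : ℝ) ^ 2 := one_le_pow₀ hNr
  unfold EC.Lc EC.C1
  rw [hlw, le_div_iff₀ ha]
  have e1 : (2 * (4 * EC.KC * lw P.G.r N / a) + (2 * P.G.nQ N + 8 * lw P.G.r N *
      (P.G.nQ N / a))) * a = 8 * EC.KC * lw P.G.r N + 2 * P.G.nQ N * a +
        8 * lw P.G.r N * P.G.nQ N := by
    field_simp
    ring
  rw [e1]
  have t1 : 8 * EC.KC * lw P.G.r N ≤ 8 * EC.KC * P.G.r * (N : ℝ) ^ 2 := by
    have h1 : 8 * EC.KC * lw P.G.r N ≤ 8 * EC.KC * P.G.r :=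
      mul_le_mul_of_nonneg_left hlwr (by positivity)
    have h2 : 0 ≤ 8 * EC.KC * P.G.r := by positivity
    nlinarith
  have t2 : 2 * P.G.nQ N * a ≤ 2 * ((2 * (P.G.b : ℝ) + 1) ^ 2 * (N : ℝ) ^ 2) := by
    have h1 : P.G.nQ N * a ≤ P.G.nQ N * 1 := mul_le_mul_of_nonneg_left ha1 hnQ0
    linarith
  have t3 : 8 * lw P.G.r N * P.G.nQ N ≤
      8 * P.G.r * ((2 * (P.G.b : ℝ) + 1) ^ 2 * (N : ℝ) ^ 2) :=
    mul_le_mul (by linarith) hnQ hnQ0 (by positivity)
  have t4 : 0 ≤ (N : ℝ) ^ 2 := by positivity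
  nlinarith

/-- THIN: removing class `m` -/
theorem thin_inst (G : Gd c) (Cw : ℝ) (hCw : 1 ≤ Cw) : ∃ (N1 : ℕ) (Cx : ℝ), 1 ≤ N1 ∧ 0 ≤ Cx ∧
    ∀ (ι : Type) [Fintype ι] [DecidableEq ι] (P : Par c ι) (a : ℝ), P.G = G → P.Cw = Cw →
      N1 ≤ P.N0 → Std P a → 0 < Fintype.card ι → ∀ m ≤ P.M,
        P.sys.Dw P.A P.xi m 0 (P.et m) + Fintype.card ι ≤
          (P.sys.Dw P.A P.xi m 1 (P.et m) + Fintype.card ι) *
            Real.exp (Cx / ((P.N0 : ℝ) + m) ^ 2) := by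
  by_cases hc : 0 < c
  swap
  · exact ⟨1, 0, le_rfl, le_rfl, fun ι _ _ P _ _ _ _ _ _ => absurd P.c_pos hc⟩
  obtain ⟨N1, K, h1, hK, H1⟩ := exists_ers hc G hCw 14
  obtain ⟨N2, h2, H2⟩ := G.exists_SmE hc
  obtain ⟨N3, h3, H3⟩ := G.exists_N1
  have hr := G.r_pos
  have hKC : (0 : ℝ) ≤ EC.KC := by unfold EC.KC; norm_num
  set C : ℝ := K + (8 * EC.KC * G.r + (2 + 8 * G.r) * (2 * (G.b : ℝ) + 1) ^ 2 + 1) with hC
  have hCL : 8 * EC.KC * G.r + (2 + 8 * G.r) * (2 * (G.b : ℝ) + 1) ^ 2 + 1 ≤ C := by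
    rw [hC]; linarith
  have hKC' : K ≤ C := by
    rw [hC]
    have : 0 ≤ 8 * EC.KC * G.r + (2 + 8 * G.r) * (2 * (G.b : ℝ) + 1) ^ 2 + 1 := by positivity
    linarith
  have hC1 : 1 ≤ C := by
    refine le_trans ?_ hCL
    have : 0 ≤ 8 * EC.KC * G.r + (2 + 8 * G.r) * (2 * (G.b : ℝ) + 1) ^ 2 := by positivity
    linarith
  refine ⟨max N1 (max N2 N3), C * (17601 * C + 5 + 4096) + 1,
    h1.trans (le_max_left _ _), by positivity, ?_⟩
  intro ι _ _ P a hG hCw' hN0 hstd hcard m hm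
  have hN1 : N1 ≤ P.N0 := (le_max_left _ _).trans hN0
  have hN2 : N2 ≤ P.N0 := ((le_max_left _ _).trans (le_max_right _ _)).trans hN0
  have hN3 : N3 ≤ P.N0 := ((le_max_right _ _).trans (le_max_right _ _)).trans hN0
  have hgood : WO.Good P.sys P.A := P.good (N1 := N3) (by rw [hG]; exact H3) hN3
  set N : ℕ := P.N0 + m with hN
  have hP1 := P.one_le
  have hN1' : 1 ≤ N := hP1.trans (Nat.le_add_right _ _)
  have hNr : (1 : ℝ) ≤ (N : ℝ) := by exact_mod_cast hN1'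
  have het0 : 0 < P.et m := P.et_pos m
  have hetu : P.et m ≤ Real.exp (-((N : ℝ) ^ 12)) := hstd.et_le_ev m
  have hetl : ev (P.N0 + m + 1) ≤ P.et m := hstd.et_ge hm
  have hsm : P.G.SmE N (P.et m) := by
    rw [hG]
    exact H2 N (hN2.trans (Nat.le_add_right _ _)) (P.et m) het0 hetu
  have hE := P.ehyp hgood m het0 hsm
  -- the parameter `ε = 1 / N ^ 2`
  set ε : ℝ := 1 / (N : ℝ) ^ 2 with hε
  have hε0 : 0 < ε := by positivity
  set e : ℝ := K * ((N : ℝ) ^ 14)⁻¹ with he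
  have he0 : 0 ≤ e := by positivity
  have hmain := P.sys.thin_eps hgood P.xi m hE het0 hcard e ε he0 hε0
    (fun t ht0 ht1 => H1 ι P hG hCw' hN1 hgood m t (P.et m) het0 hetu ht0.le ht1)
  refine hmain.trans (mul_le_mul_of_nonneg_left (Real.exp_le_exp.mpr ?_) ?_)
  · -- the exponent
    have hL := Lc_le G P hG m het0 (P.et_le m)
    have hL0 := EC.Lc_nonneg P.sys m het0 hE.dm_nonneg
    rw [hG] at hL0 ⊢
    set L : ℝ := EC.Lc P.sys m (P.et m) (G.nQ (P.N0 + m)) with hLdef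
    have hLC : L ≤ C * (N : ℝ) ^ 2 / P.et m := by
      refine hL.trans ?_
      gcongr
    have hlog : Real.log (1 + 17600 * L / ε) ≤
        (17601 * C + 5 + 4096) * (N : ℝ) ^ 12 := by
      have harg : 1 + 17600 * L / ε ≤ 17601 * C * (N : ℝ) ^ 4 * (1 / P.et m) := by
        have e1 : 17600 * L / ε = 17600 * L * (N : ℝ) ^ 2 := by
          rw [hε]; field_simp
        rw [e1]
        have e2 : L * (N : ℝ) ^ 2 ≤ C * (N : ℝ) ^ 4 * (1 / P.et m) := by
          calc L * (N : ℝ) ^ 2 ≤ (C * (N : ℝ) ^ 2 / P.et m) * (N : ℝ) ^ 2 :=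
                mul_le_mul_of_nonneg_right hLC (by positivity)
            _ = _ := by ring
        have e3 : 1 ≤ C * (N : ℝ) ^ 4 * (1 / P.et m) := by
          have a1 : 1 ≤ C * (N : ℝ) ^ 4 :=
            one_le_mul_of_one_le_of_one_le hC1 (one_le_pow₀ hNr)
          have a2 : 1 ≤ 1 / P.et m := by
            rw [le_div_iff₀ het0, one_mul]; exact P.et_le m
          exact one_le_mul_of_one_le_of_one_le a1 a2
        nlinarith
      have hpos : 0 < 1 + 17600 * L / ε := by positivity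
      refine (Real.log_le_log hpos harg).trans ?_
      rw [Real.log_mul (by positivity) (by positivity), Real.log_mul (by positivity)
        (by positivity), Real.log_pow, one_div, Real.log_inv]
      have b1 : Real.log (17601 * C) ≤ 17601 * C := by
        have := Real.log_le_sub_one_of_pos (show (0 : ℝ) < 17601 * C by positivity)
        linarith
      have b2 : Real.log N ≤ N := by
        have := Real.log_le_sub_one_of_pos (show (0 : ℝ) < N by linarith)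
        linarith
      have b3 : -Real.log (P.et m) ≤ 4096 * (N : ℝ) ^ 12 := by
        have e1 : Real.log (ev (P.N0 + m + 1)) ≤ Real.log (P.et m) :=
          Real.log_le_log (ev_pos _) hetl
        rw [log_ev] at e1
        have e2 : (((P.N0 + m + 1 : ℕ) : ℝ)) ^ 12 ≤ 4096 * (N : ℝ) ^ 12 := by
          have : ((P.N0 + m + 1 : ℕ) : ℝ) ≤ 2 * N := by
            have : ((P.N0 + m + 1 : ℕ) : ℝ) = (N : ℝ) + 1 := by rw [hN]; push_cast; ring
            linarith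
          calc (((P.N0 + m + 1 : ℕ) : ℝ)) ^ 12 ≤ (2 * (N : ℝ)) ^ 12 := by gcongr
            _ = 4096 * (N : ℝ) ^ 12 := by ring
        linarith
      have c0 : (N : ℝ) ≤ (N : ℝ) ^ 12 := le_self_pow₀ hNr (by norm_num)
      have c00 : (1 : ℝ) ≤ (N : ℝ) ^ 12 := one_le_pow₀ hNr
      have c1 : 17601 * C ≤ 17601 * C * (N : ℝ) ^ 12 := by nlinarith
      push_cast
      nlinarith
    have hmul : e * Real.log (1 + 17600 * L / ε) ≤
        C * (17601 * C + 5 + 4096) * (1 / (N : ℝ) ^ 2) := by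
      calc e * Real.log (1 + 17600 * L / ε) ≤ e * ((17601 * C + 5 + 4096) * (N : ℝ) ^ 12) :=
            mul_le_mul_of_nonneg_left hlog he0
        _ = K * (17601 * C + 5 + 4096) * (1 / (N : ℝ) ^ 2) := by
            have hNne : (N : ℝ) ≠ 0 := by linarith
            rw [he]
            field_simp
        _ ≤ C * (17601 * C + 5 + 4096) * (1 / (N : ℝ) ^ 2) := by gcongr
    have hcast : ((P.N0 : ℝ) + m) = (N : ℝ) := by rw [hN]; push_cast; ring
    rw [hcast]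
    have hlast : C * (17601 * C + 5 + 4096) * (1 / (N : ℝ) ^ 2) + ε =
        (C * (17601 * C + 5 + 4096) + 1) / (N : ℝ) ^ 2 := by
      rw [hε]
      ring
    rw [← hlast]
    linarith
  · have := P.sys.Dw_nonneg (A := P.A) hgood P.xi m zero_le_one (le_refl 1) het0
    positivity

end Pool.Agent.Lib.MP_562b47_mp.CH
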