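import Pool.Agent.Lib.MP_562b47_mp.CH.Seq
import Pool.Agent.Lib.MP_562b47_mp.BR.NumT

/-!
MP_562b47, d = 2, the chain: the numbers in LOWER.
-/

open Finset

namespace Pool.Agent.Lib.MP_562b47_mp.CH

open Pool.Agent.Lib.MP_562b47_mp.BR

/-- the numbers in LOWER -/
theorem low_num (C Cp Cz : ℝ) (hC : 0 ≤ C) (hCp : 0 ≤ Cp) (hCz : 1 ≤ Cz) :
    ∃ (N1 : ℕ) (Cy : ℝ), 1 ≤ N1 ∧ 0 ≤ Cy ∧ ∀ N : ℕ, N1 ≤ N →
    ∀ Z0 W0 D0 K2 Nn qb qc e e1 : ℝ, 0 ≤ Z0 → 0 ≤ W0 → 0 ≤ D0 → 0 ≤ Nn →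
      Z0 ≤ Real.exp (Cz * ((N : ℝ) + 1) ^ 5) → W0 ≤ Real.exp (Cz * ((N : ℝ) + 1) ^ 5) →
      D0 ≤ Cz * ((N : ℝ) + 1) ^ 2 → Nn ≤ Cz * ((N : ℝ) + 1) ^ 2 →
      K2 * (2 * Nn * qb + 2 * qc) ≤ Cz * Real.exp (-((N : ℝ) + 1)) →
      ev (N + 2) ≤ e1 → e1 ≤ e → e ≤ ev N →
      8 * (2 * (C * (Cp + 1)) * (Z0 * (W0 + (2 + 2 * D0) * Nn) + C * (Cp + 1) * (2 + 2 * D0) * Nn)) *
          e ^ (1 / 8 : ℝ) +
        (C * (Cp + 1) * K2 * (2 * Nn * qb + 2 * qc)) * Real.log (e / e1) +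
        C * (Cp + 1) * (2 * D0 + 1) * e ≤ Cy / (N : ℝ) ^ 2 := by
  set K : ℝ := C * (Cp + 1) with hK
  have hK0 : 0 ≤ K := by positivity
  set A : ℝ := 16 * K * (1 + 4 * Cz ^ 2 + 4 * K * Cz ^ 2) + 64 * Cz + 2 with hA
  have hA0 : 0 ≤ A := by positivity
  obtain ⟨N1, h1, h2⟩ := exp_beats A (1 / 8) (by norm_num) (k := 5) (l := 12) (by norm_num)
    (ε := 1) one_pos
  refine ⟨N1, 1 + K * Cz * 3 ^ 12 * (Nat.factorial 14 : ℝ) + 12 * K * Cz, h1, by positivity, ?_⟩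
  intro N hN Z0 W0 D0 K2 Nn qb qc e e1 hZ0 hW0 hD0 hNn hZ hW hD hNn' hKK he1 hee heN
  have hN1 : (1 : ℝ) ≤ N := by exact_mod_cast h1.trans hN
  have hev := ev_pos (N + 2)
  have he1p : 0 < e1 := hev.trans_le he1
  have hep : 0 < e := he1p.trans_le hee
  have hNN : (0 : ℝ) < (N : ℝ) ^ 2 := by positivity
  set x : ℝ := (N : ℝ) + 1 with hx
  have hx1 : 1 ≤ x := by rw [hx]; linarith
  have hx0 : 0 ≤ x := by linarith
  set X : ℝ := Real.exp (Cz * x ^ 5) with hX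
  have hX1 : 1 ≤ X := Real.one_le_exp (by positivity)
  have hX0 : 0 < X := Real.exp_pos _
  have hx4 : x ^ 4 ≤ X := by
    calc x ^ 4 ≤ Real.exp (x ^ 4) := by linarith [Real.add_one_le_exp (x ^ 4)]
      _ ≤ X := by
          apply Real.exp_le_exp.mpr
          calc x ^ 4 ≤ x ^ 5 := pow_le_pow_right₀ hx1 (by norm_num)
            _ ≤ Cz * x ^ 5 := by
                have : 0 ≤ x ^ 5 := by positivity
                nlinarith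
  -- first term
  have hDN : (2 + 2 * D0) * Nn ≤ 4 * Cz ^ 2 * X := by
    have e1 : 2 + 2 * D0 ≤ 4 * Cz * x ^ 2 := by
      have : 1 ≤ Cz * x ^ 2 := by
        have : 1 ≤ x ^ 2 := one_le_pow₀ hx1
        nlinarith
      linarith
    calc (2 + 2 * D0) * Nn ≤ (4 * Cz * x ^ 2) * (Cz * x ^ 2) := by gcongr
      _ = 4 * Cz ^ 2 * x ^ 4 := by ring
      _ ≤ 4 * Cz ^ 2 * X := by gcongr
  have hDN0 : 0 ≤ (2 + 2 * D0) * Nn := by positivity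
  have hT1a : Z0 * (W0 + (2 + 2 * D0) * Nn) + K * (2 + 2 * D0) * Nn ≤
      (1 + 4 * Cz ^ 2 + 4 * K * Cz ^ 2) * X ^ 2 := by
    have e1 : Z0 * (W0 + (2 + 2 * D0) * Nn) ≤ X * (X + 4 * Cz ^ 2 * X) := by gcongr
    have e2 : K * (2 + 2 * D0) * Nn ≤ K * (4 * Cz ^ 2 * X) := by
      rw [mul_assoc]
      gcongr
    have e3 : K * (4 * Cz ^ 2 * X) ≤ K * (4 * Cz ^ 2 * X ^ 2) := by
      have : X ≤ X ^ 2 := by nlinarith
      gcongr
    calc Z0 * (W0 + (2 + 2 * D0) * Nn) + K * (2 + 2 * D0) * Nn ≤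
          X * (X + 4 * Cz ^ 2 * X) + K * (4 * Cz ^ 2 * X ^ 2) := by linarith
      _ = _ := by ring
  have he8 : e ^ (1 / 8 : ℝ) ≤ Real.exp (-(1 / 8 * (N : ℝ) ^ 12)) := by
    calc e ^ (1 / 8 : ℝ) ≤ (ev N) ^ (1 / 8 : ℝ) := Real.rpow_le_rpow hep.le heN (by norm_num)
      _ = Real.exp (-(1 / 8 * (N : ℝ) ^ 12)) := by
          unfold ev
          rw [← Real.exp_mul]
          congr 1
          ring
  have he80 : 0 ≤ e ^ (1 / 8 : ℝ) := Real.rpow_nonneg hep.le _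
  have hX2 : X ^ 2 ≤ Real.exp (64 * Cz * (N : ℝ) ^ 5) := by
    rw [hX, ← Real.exp_nat_mul]
    apply Real.exp_le_exp.mpr
    have e1 : x ^ 5 ≤ (2 * (N : ℝ)) ^ 5 := by
      have : x ≤ 2 * N := by rw [hx]; linarith
      gcongr
    have e2 : (2 * (N : ℝ)) ^ 5 = 32 * (N : ℝ) ^ 5 := by ring
    rw [e2] at e1
    push_cast
    have hCz0 : 0 ≤ Cz := by linarith
    nlinarith [mul_le_mul_of_nonneg_left e1 hCz0]
  have hN2 : (N : ℝ) ^ 2 ≤ Real.exp (2 * (N : ℝ) ^ 5) := by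
    have e1 : (N : ℝ) ≤ Real.exp N := by linarith [Real.add_one_le_exp (N : ℝ)]
    calc (N : ℝ) ^ 2 ≤ Real.exp N ^ 2 := by gcongr
      _ = Real.exp (2 * N) := by rw [← Real.exp_nat_mul]; norm_num
      _ ≤ Real.exp (2 * (N : ℝ) ^ 5) := by
          apply Real.exp_le_exp.mpr
          have : (N : ℝ) ≤ (N : ℝ) ^ 5 := le_self_pow₀ hN1 (by norm_num)
          linarith
  have hT1 : 8 * (2 * K * (Z0 * (W0 + (2 + 2 * D0) * Nn) + K * (2 + 2 * D0) * Nn)) *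
      e ^ (1 / 8 : ℝ) * (N : ℝ) ^ 2 ≤ 1 := by
    calc 8 * (2 * K * (Z0 * (W0 + (2 + 2 * D0) * Nn) + K * (2 + 2 * D0) * Nn)) *
        e ^ (1 / 8 : ℝ) * (N : ℝ) ^ 2
        ≤ 8 * (2 * K * ((1 + 4 * Cz ^ 2 + 4 * K * Cz ^ 2) * Real.exp (64 * Cz * (N : ℝ) ^ 5))) *
          Real.exp (-(1 / 8 * (N : ℝ) ^ 12)) * Real.exp (2 * (N : ℝ) ^ 5) := by
          have hs : Z0 * (W0 + (2 + 2 * D0) * Nn) + K * (2 + 2 * D0) * Nn ≤
              (1 + 4 * Cz ^ 2 + 4 * K * Cz ^ 2) * Real.exp (64 * Cz * (N : ℝ) ^ 5) :=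
            hT1a.trans (mul_le_mul_of_nonneg_left hX2 (by positivity))
          gcongr
      _ = 16 * K * (1 + 4 * Cz ^ 2 + 4 * K * Cz ^ 2) *
          (Real.exp (64 * Cz * (N : ℝ) ^ 5) * Real.exp (2 * (N : ℝ) ^ 5)) *
          Real.exp (-(1 / 8 * (N : ℝ) ^ 12)) := by ring
      _ ≤ A * Real.exp (A * (N : ℝ) ^ 5) * Real.exp (-(1 / 8 * (N : ℝ) ^ 12)) := by
          rw [← Real.exp_add]
          have p1 : 16 * K * (1 + 4 * Cz ^ 2 + 4 * K * Cz ^ 2) ≤ A := by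
            rw [hA]; linarith
          have p2 : 64 * Cz * (N : ℝ) ^ 5 + 2 * (N : ℝ) ^ 5 ≤ A * (N : ℝ) ^ 5 := by
            have : 64 * Cz + 2 ≤ A := by
              rw [hA]
              have : 0 ≤ 16 * K * (1 + 4 * Cz ^ 2 + 4 * K * Cz ^ 2) := by positivity
              linarith
            have p3 : (0 : ℝ) ≤ (N : ℝ) ^ 5 := by positivity
            nlinarith [mul_le_mul_of_nonneg_right this p3]
          gcongr
      _ ≤ 1 := h2 N hN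
  -- second term
  have hlog0 : 0 ≤ Real.log (e / e1) := Real.log_nonneg (by rw [le_div_iff₀ he1p]; linarith)
  have hlog : Real.log (e / e1) ≤ 3 ^ 12 * (N : ℝ) ^ 12 := by
    rw [Real.log_div hep.ne' he1p.ne']
    have p1 : Real.log e ≤ 0 := Real.log_nonpos hep.le (heN.trans (ev_le_one N))
    have p2 : -(((N + 2 : ℕ) : ℝ) ^ 12) ≤ Real.log e1 := by
      rw [← log_ev]
      exact Real.log_le_log hev he1
    have p3 : ((N + 2 : ℕ) : ℝ) ^ 12 ≤ 3 ^ 12 * (N : ℝ) ^ 12 := by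
      rw [← mul_pow]
      push_cast
      have : (N : ℝ) + 2 ≤ 3 * N := by linarith
      gcongr
    linarith
  have hexp : (N : ℝ) ^ 14 * Real.exp (-x) ≤ (Nat.factorial 14 : ℝ) := by
    have p1 : (N : ℝ) ^ 14 / (Nat.factorial 14 : ℝ) ≤ Real.exp N :=
      Real.pow_div_factorial_le_exp (N : ℝ) (by linarith) 14
    have p2 : (0 : ℝ) < (Nat.factorial 14 : ℝ) := by positivity
    rw [div_le_iff₀ p2] at p1
    have p3 : Real.exp (-x) ≤ Real.exp (-(N : ℝ)) := by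
      apply Real.exp_le_exp.mpr
      rw [hx]; linarith
    have p4 : Real.exp (N : ℝ) * Real.exp (-(N : ℝ)) = 1 := by
      rw [← Real.exp_add]; simp
    calc (N : ℝ) ^ 14 * Real.exp (-x) ≤ (Real.exp N * (Nat.factorial 14 : ℝ)) *
          Real.exp (-(N : ℝ)) := by gcongr
      _ = (Nat.factorial 14 : ℝ) * (Real.exp (N : ℝ) * Real.exp (-(N : ℝ))) := by ring
      _ = _ := by rw [p4, mul_one]
  have hT2 : K * K2 * (2 * Nn * qb + 2 * qc) * Real.log (e / e1) * (N : ℝ) ^ 2 ≤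
      K * Cz * 3 ^ 12 * (Nat.factorial 14 : ℝ) := by
    have p0 : K * K2 * (2 * Nn * qb + 2 * qc) ≤ K * (Cz * Real.exp (-x)) := by
      rw [mul_assoc]
      exact mul_le_mul_of_nonneg_left hKK hK0
    have p1 : 0 ≤ K * (Cz * Real.exp (-x)) := by positivity
    calc K * K2 * (2 * Nn * qb + 2 * qc) * Real.log (e / e1) * (N : ℝ) ^ 2
        ≤ K * (Cz * Real.exp (-x)) * Real.log (e / e1) * (N : ℝ) ^ 2 := by gcongr
      _ ≤ K * (Cz * Real.exp (-x)) * (3 ^ 12 * (N : ℝ) ^ 12) * (N : ℝ) ^ 2 := by gcongr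
      _ = K * Cz * 3 ^ 12 * ((N : ℝ) ^ 14 * Real.exp (-x)) := by ring
      _ ≤ _ := by gcongr
  -- third term
  have hT3 : K * (2 * D0 + 1) * e * (N : ℝ) ^ 2 ≤ 12 * K * Cz := by
    have p1 : 2 * D0 + 1 ≤ 12 * Cz * (N : ℝ) ^ 2 := by
      have q1 : x ^ 2 ≤ 4 * (N : ℝ) ^ 2 := by
        have : x ≤ 2 * N := by rw [hx]; linarith
        calc x ^ 2 ≤ (2 * (N : ℝ)) ^ 2 := by gcongr
          _ = _ := by ring
      have q2 : 1 ≤ Cz * (N : ℝ) ^ 2 := by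
        have : (1 : ℝ) ≤ (N : ℝ) ^ 2 := one_le_pow₀ hN1
        nlinarith
      have hCz0 : 0 ≤ Cz := by linarith
      nlinarith [mul_le_mul_of_nonneg_left q1 hCz0]
    have p2 : e * ((N : ℝ) ^ 2 * (N : ℝ) ^ 2) ≤ 1 := by
      have q1 : (N : ℝ) ^ 2 * (N : ℝ) ^ 2 ≤ Real.exp ((N : ℝ) ^ 12) := by
        calc (N : ℝ) ^ 2 * (N : ℝ) ^ 2 = (N : ℝ) ^ 4 := by ring
          _ ≤ (N : ℝ) ^ 12 := pow_le_pow_right₀ hN1 (by norm_num)
          _ ≤ _ := by linarith [Real.add_one_le_exp ((N : ℝ) ^ 12)]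
      have q2 : e ≤ Real.exp (-((N : ℝ) ^ 12)) := heN
      calc e * ((N : ℝ) ^ 2 * (N : ℝ) ^ 2) ≤
            Real.exp (-((N : ℝ) ^ 12)) * Real.exp ((N : ℝ) ^ 12) := by gcongr
        _ = 1 := by rw [← Real.exp_add]; simp
    calc K * (2 * D0 + 1) * e * (N : ℝ) ^ 2 ≤ K * (12 * Cz * (N : ℝ) ^ 2) * e * (N : ℝ) ^ 2 := by
          gcongr
      _ = 12 * K * Cz * (e * ((N : ℝ) ^ 2 * (N : ℝ) ^ 2)) := by ring
      _ ≤ 12 * K * Cz * 1 := by gcongr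
      _ = _ := mul_one _
  rw [le_div_iff₀ hNN]
  have hsum : (8 * (2 * K * (Z0 * (W0 + (2 + 2 * D0) * Nn) + K * (2 + 2 * D0) * Nn)) *
      e ^ (1 / 8 : ℝ) + K * K2 * (2 * Nn * qb + 2 * qc) * Real.log (e / e1) +
      K * (2 * D0 + 1) * e) * (N : ℝ) ^ 2 =
      8 * (2 * K * (Z0 * (W0 + (2 + 2 * D0) * Nn) + K * (2 + 2 * D0) * Nn)) *
      e ^ (1 / 8 : ℝ) * (N : ℝ) ^ 2 +
      K * K2 * (2 * Nn * qb + 2 * qc) * Real.log (e / e1) * (N : ℝ) ^ 2 +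
      K * (2 * D0 + 1) * e * (N : ℝ) ^ 2 := by ring
  rw [hsum]
  linarith

end Pool.Agent.Lib.MP_562b47_mp.CH
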