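import Mathlib

/-!
MP_562b47, d = 2, the chain: the sequence of the backgrounds and the product of the factors.
-/

open Finset

namespace Pool.Agent.Lib.MP_562b47_mp.CH

/-- `exp (-N^12)` -/
noncomputable def ev (N : ℕ) : ℝ := Real.exp (-((N : ℝ) ^ 12))

theorem ev_pos (N : ℕ) : 0 < ev N := Real.exp_pos _

theorem ev_anti {N N' : ℕ} (h : N ≤ N') : ev N' ≤ ev N := by
  unfold ev
  apply Real.exp_le_exp.mpr
  have : (N : ℝ) ^ 12 ≤ (N' : ℝ) ^ 12 := by
    have : (N : ℝ) ≤ N' := by exact_mod_cast h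
    gcongr
  linarith

theorem ev_le_one (N : ℕ) : ev N ≤ 1 := by
  unfold ev
  rw [Real.exp_le_one_iff]
  have : (0 : ℝ) ≤ (N : ℝ) ^ 12 := by positivity
  linarith

theorem log_ev (N : ℕ) : Real.log (ev N) = -((N : ℝ) ^ 12) := Real.log_exp _

/-- the backgrounds: `exp (-(N0 + j)^12)` for `j < M`, `a` for `j = M` -/
noncomputable def etf (N0 M : ℕ) (a : ℝ) (j : ℕ) : ℝ :=
  if j < M then ev (N0 + j) else min a (ev (N0 + j))

variable {N0 M j : ℕ} {a : ℝ}

theorem etf_pos (ha : 0 < a) : 0 < etf N0 M a j := by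
  unfold etf
  split_ifs
  · exact ev_pos _
  · exact lt_min ha (ev_pos _)

theorem etf_le_ev : etf N0 M a j ≤ ev (N0 + j) := by
  unfold etf
  split_ifs
  · exact le_refl _
  · exact min_le_right _ _

theorem etf_le_one : etf N0 M a j ≤ 1 := etf_le_ev.trans (ev_le_one _)

theorem etf_ge (hj : j ≤ M) (ha : ev (N0 + M + 1) ≤ a) : ev (N0 + j + 1) ≤ etf N0 M a j := by
  unfold etf
  split_ifs with h
  · exact ev_anti (by omega)
  · have : j = M := by omega
    subst this
    exact le_min ha (ev_anti (by omega))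

theorem etf_last (ha : a ≤ ev (N0 + M)) : etf N0 M a M = a := by
  unfold etf
  rw [if_neg (lt_irrefl _), min_eq_left ha]

theorem etf_ge_a (hj : j ≤ M) (ha : a ≤ ev (N0 + M)) : a ≤ etf N0 M a j := by
  unfold etf
  split_ifs with h
  · exact ha.trans (ev_anti (by omega))
  · have : j = M := by omega
    subst this
    exact le_min (le_refl _) ha

theorem etf_anti (hj : j < M) : etf N0 M a (j + 1) ≤ etf N0 M a j := by
  refine etf_le_ev.trans ?_
  unfold etf
  rw [if_pos hj]
  exact ev_anti (by omega)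

theorem exists_M (N0 : ℕ) (ha : 0 < a) (ha1 : a ≤ ev N0) :
    ∃ M : ℕ, ev (N0 + M + 1) ≤ a ∧ a ≤ ev (N0 + M) := by
  classical
  have hex : ∃ k : ℕ, ev (N0 + k + 1) ≤ a := by
    obtain ⟨k, hk⟩ := exists_nat_gt (-Real.log a)
    refine ⟨k, ?_⟩
    have h1 : ev (N0 + k + 1) ≤ Real.exp (Real.log a) := by
      unfold ev
      apply Real.exp_le_exp.mpr
      have h2 : (k : ℝ) ≤ ((N0 + k + 1 : ℕ) : ℝ) := by
        push_cast
        have : (0 : ℝ) ≤ N0 := Nat.cast_nonneg _
        linarith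
      have h3 : (1 : ℝ) ≤ ((N0 + k + 1 : ℕ) : ℝ) := by
        push_cast
        have : (0 : ℝ) ≤ N0 := Nat.cast_nonneg _
        have : (0 : ℝ) ≤ k := Nat.cast_nonneg _
        linarith
      have h4 : ((N0 + k + 1 : ℕ) : ℝ) ≤ ((N0 + k + 1 : ℕ) : ℝ) ^ 12 :=
        le_self_pow₀ h3 (by norm_num)
      linarith
    rwa [Real.exp_log ha] at h1
  refine ⟨Nat.find hex, Nat.find_spec hex, ?_⟩
  rcases Nat.eq_zero_or_pos (Nat.find hex) with h | h
  · rw [h]; exact ha1
  · have h1 := Nat.find_min hex (m := Nat.find hex - 1) (by omega)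
    have h2 : N0 + (Nat.find hex - 1) + 1 = N0 + Nat.find hex := by omega
    rw [h2] at h1
    exact (not_le.mp h1).le

/-- the product of the factors -/
theorem chain {F H x y : ℕ → ℝ} {C : ℝ} (M : ℕ) (h0 : F 0 ≤ C)
    (hthin : ∀ m ≤ M, H m ≤ F m * Real.exp (x m))
    (hlow : ∀ m < M, F (m + 1) ≤ H m * Real.exp (y m)) :
    H M ≤ C * Real.exp (∑ m ∈ range (M + 1), x m + ∑ m ∈ range M, y m) := by
  have key : ∀ m ≤ M, F m ≤ C * Real.exp (∑ k ∈ range m, x k + ∑ k ∈ range m, y k) := by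
    intro m
    induction m with
    | zero => intro _; simpa using h0
    | succ m ih =>
      intro hm
      have h1 := ih (by omega)
      have h2 := hthin m (by omega)
      have h3 := hlow m (by omega)
      rw [sum_range_succ, sum_range_succ]
      calc F (m + 1) ≤ H m * Real.exp (y m) := h3
        _ ≤ F m * Real.exp (x m) * Real.exp (y m) := by gcongr
        _ ≤ C * Real.exp (∑ k ∈ range m, x k + ∑ k ∈ range m, y k) * Real.exp (x m) *
            Real.exp (y m) := by gcongr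
        _ = _ := by
          rw [mul_assoc, mul_assoc, ← Real.exp_add, ← Real.exp_add]
          congr 2
          ring
  have h1 := key M (le_refl _)
  have h2 := hthin M (le_refl _)
  rw [sum_range_succ]
  calc H M ≤ F M * Real.exp (x M) := h2
    _ ≤ C * Real.exp (∑ k ∈ range M, x k + ∑ k ∈ range M, y k) * Real.exp (x M) := by gcongr
    _ = _ := by
      rw [mul_assoc, ← Real.exp_add]
      congr 2
      ring

/-- `∑ 1 / (N0 + m)^2 ≤ 2` -/
theorem sum_inv_sq {N0 : ℕ} (h : 1 ≤ N0) (M : ℕ) :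
    ∑ m ∈ range M, 1 / ((N0 : ℝ) + m) ^ 2 ≤ 2 := by
  have hN : (1 : ℝ) ≤ N0 := by exact_mod_cast h
  have key : ∀ M : ℕ, ∑ m ∈ range M, 1 / ((N0 : ℝ) + m) ^ 2 ≤
      2 * (1 / (N0 : ℝ) - 1 / ((N0 : ℝ) + M)) := by
    intro M
    induction M with
    | zero => simp
    | succ M ih =>
      rw [sum_range_succ]
      push_cast
      have hM : (0 : ℝ) ≤ M := Nat.cast_nonneg _
      set X : ℝ := (N0 : ℝ) + M with hX
      have hX1 : (1 : ℝ) ≤ X := by linarith
      have h1 : 1 / X ^ 2 ≤ 2 * (1 / X - 1 / (X + 1)) := by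
        rw [div_sub_div _ _ (by linarith) (by linarith), ← mul_div_assoc, div_le_div_iff₀
          (by positivity) (by positivity)]
        nlinarith
      have e3 : (N0 : ℝ) + (M + 1) = X + 1 := by rw [hX]; ring
      rw [e3]
      linarith
  refine (key M).trans ?_
  have h1 : 1 / (N0 : ℝ) ≤ 1 := by rw [div_le_one (by linarith)]; exact hN
  have h2 : 0 ≤ 1 / ((N0 : ℝ) + M) := by positivity
  linarith

end Pool.Agent.Lib.MP_562b47_mp.CH
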