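import Pool.Agent.Lib.MP_562b47_mp.CH.Seq
import Pool.Agent.Lib.MP_562b47_mp.BR.NumT
import Pool.Agent.Lib.MP_562b47_mp.BR.Quant

/-!
MP_562b47, d = 2, the chain: the backgrounds of the instance.
-/

open Finset

namespace Pool.Agent.Lib.MP_562b47_mp.CH

open Pool.Agent.Lib.MP_562b47_mp.BR

variable {c : ℝ}

/-- the backgrounds of the instance: `exp (-N^12)` for the classes `< M`, `a` for the class `M` -/
structure Std {ι : Type} (P : Par c ι) (a : ℝ) : Prop where
  et_eq : P.et = etf P.N0 P.M a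
  a_pos : 0 < a
  a_ge : ev (P.N0 + P.M + 1) ≤ a
  a_le : a ≤ ev (P.N0 + P.M)

namespace Std

variable {ι : Type} {P : Par c ι} {a : ℝ} (h : Std P a)

include h

theorem et_le_ev (j : ℕ) : P.et j ≤ ev (P.N0 + j) := by
  rw [h.et_eq]; exact etf_le_ev

theorem et_ge {j : ℕ} (hj : j ≤ P.M) : ev (P.N0 + j + 1) ≤ P.et j := by
  rw [h.et_eq]; exact etf_ge hj h.a_ge

theorem et_ge_a {j : ℕ} (hj : j ≤ P.M) : a ≤ P.et j := by
  rw [h.et_eq]; exact etf_ge_a hj h.a_le

theorem et_last : P.et P.M = a := by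
  rw [h.et_eq]; exact etf_last h.a_le

theorem et_anti {j : ℕ} (hj : j < P.M) : P.et (j + 1) ≤ P.et j := by
  rw [h.et_eq]; exact etf_anti hj

end Std

end Pool.Agent.Lib.MP_562b47_mp.CH
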